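import Pool.Agent.Helper346.Cay.Final
import Pool.Agent.Y460.CY.Upper

/-!
# MP_6271a1_ag: the Cayley degrees of `SL_n` grow at least like the square root of `n`

`k` is an algebraically closed field of characteristic zero. For every prime `p` every dominant
`SL_n`-equivariant rational map from `SL_n`, `n = p ^ 2`, to its Lie algebra has finite degree at
least `p`; so `p ≤ Cay(SL_{p²}) ≤ p²`. The first group with Cayley degree larger than two is
`SL_9`. For every `N ≥ 4` some simple group `SL_n` with `2 ≤ n ≤ N` has Cayley degree larger than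
`√N / 2`, while all of them have Cayley degree at most `N`. In particular the Cayley degrees of the
simple groups are unbounded (Q1, Q2).
-/

set_option autoImplicit false

namespace Pool.Agent.Results.MP_6271a1_ag.SquareRootGrowth

open Pool.Agent.Helper346.Cay

theorem result (k : Type*) [Field k] [IsAlgClosed k] [CharZero k] :
    (∀ d : ℕ, ∃ n : ℕ, 2 ≤ n ∧ d < cayleyDegree n k) ∧
    (∀ p : ℕ, p.Prime → p ≤ cayleyDegree (p ^ 2) k ∧
      ∀ F : Matrix (Fin (p ^ 2)) (Fin (p ^ 2)) (FractionRing (SLRing (p ^ 2) k)),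
        IsEquivariantDominant (p ^ 2) k (FractionRing (SLRing (p ^ 2) k)) F →
          FiniteDimensional (fieldOf (p ^ 2) k (FractionRing (SLRing (p ^ 2) k)) F)
            (FractionRing (SLRing (p ^ 2) k)) ∧
          p ≤ mapDegree (p ^ 2) k (FractionRing (SLRing (p ^ 2) k)) F) ∧
    2 < cayleyDegree 9 k ∧
    (∀ N : ℕ, 4 ≤ N → ∃ n : ℕ, 2 ≤ n ∧ n ≤ N ∧ N < (2 * cayleyDegree n k) ^ 2) ∧
    ∀ n : ℕ, 1 ≤ n → 1 ≤ cayleyDegree n k ∧ cayleyDegree n k ≤ n := by
  refine ⟨unbounded k, fun p hp => ⟨le_cayleyDegree k p hp, fun F hF => ?_⟩, two_lt_nine k,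
    fun N hN => ?_, fun n hn => ⟨Pool.Agent.Y460.CY.one_le n hn k, Pool.Agent.Y460.CY.le_n n hn k⟩⟩
  · haveI : Fact p.Prime := ⟨hp⟩
    have hn : 0 < p ^ 2 := pow_pos hp.pos 2
    haveI := FN1 (p ^ 2) hn k (FractionRing (SLRing (p ^ 2) k)) F hF.dominant
    exact ⟨this, core p (p ^ 2) rfl k (FractionRing (SLRing (p ^ 2) k)) F hF
      (Module.finBasis (fieldOf (p ^ 2) k (FractionRing (SLRing (p ^ 2) k)) F)
        (FractionRing (SLRing (p ^ 2) k)))⟩
  · have h1 : 2 ≤ Nat.sqrt N := by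
      rw [Nat.le_sqrt]
      omega
    obtain ⟨p, hp, h2, h3⟩ := Nat.exists_prime_lt_and_le_two_mul (Nat.sqrt N / 2) (by omega)
    have h4 : p ≤ Nat.sqrt N := by omega
    have h5 : Nat.sqrt N + 1 ≤ 2 * p := by omega
    refine ⟨p ^ 2, ?_, ?_, ?_⟩
    · have := hp.two_le
      nlinarith
    · calc p ^ 2 ≤ Nat.sqrt N ^ 2 := Nat.pow_le_pow_left h4 2
        _ ≤ N := Nat.sqrt_le' N
    · calc N < (Nat.sqrt N + 1) ^ 2 := Nat.lt_succ_sqrt' N
        _ ≤ (2 * p) ^ 2 := Nat.pow_le_pow_left h5 2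
        _ ≤ (2 * cayleyDegree (p ^ 2) k) ^ 2 :=
          Nat.pow_le_pow_left (Nat.mul_le_mul_left 2 (le_cayleyDegree k p hp)) 2

end Pool.Agent.Results.MP_6271a1_ag.SquareRootGrowth
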